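import Pool.Agent.H84.BAS.TP
import Pool.Agent.H56.G3.TI

/-!
# Two exponentials which are close in mean square
-/

set_option autoImplicit false

namespace Pool.Agent.H69.G3

open Finset Pool.Agent.H6.N4D Pool.Agent.H93.EB Pool.Agent.H93.GS Pool.Agent.H56.G3

/-- the distance to the integers grows linearly as long as it is small -/
theorem nd_lin (θ ν : ℝ) (L : ℕ) (hν0 : 0 ≤ ν) (hν : ν ≤ 1 / 4)
    (h : ∀ s : ℕ, 1 ≤ s → s ≤ L → nd (θ * s) ≤ ν) :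
    ∀ s : ℕ, s ≤ L → (s : ℝ) * nd θ ≤ ν := by
  intro s
  induction s with
  | zero => intro _; simpa using hν0
  | succ s ih =>
    intro hs
    have h1 : nd θ ≤ ν := by
      have := h 1 le_rfl (by omega)
      simpa using this
    have h2 := ih (by omega)
    have h3 := h (s + 1) (by omega) hs
    have h4 : ((s + 1 : ℕ) : ℝ) * nd θ ≤ 1 / 2 := by push_cast; linarith
    have h5 : θ * ((s + 1 : ℕ) : ℝ) = ((s + 1 : ℕ) : ℝ) * (θ - round θ) +
        ((((s + 1 : ℕ) : ℤ) * round θ : ℤ) : ℝ) := by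
      push_cast; ring
    have h6 : |((s + 1 : ℕ) : ℝ) * (θ - round θ)| = ((s + 1 : ℕ) : ℝ) * nd θ := by
      rw [abs_mul, abs_of_nonneg (by positivity)]
      rfl
    rw [h5, nd_add_int, nd_eq_abs (by rw [h6]; exact h4), h6] at h3
    exact h3

/-- the shifted difference -/
theorem shift_le (c c' : ℂ) (a a' : ℝ) (m s : ℕ) :
    (‖c'‖ * ‖ee ((a' - a) * s) - 1‖) ^ 2 ≤
      2 * ‖c * ee (a * ((m + s : ℕ) : ℝ)) - c' * ee (a' * ((m + s : ℕ) : ℝ))‖ ^ 2 +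
        2 * ‖c * ee (a * m) - c' * ee (a' * m)‖ ^ 2 := by
  have e1 : ee (a * ((m + s : ℕ) : ℝ)) = ee (a * m) * ee (a * s) := by
    rw [← ee_add]; congr 1; push_cast; ring
  have e2 : ee (a' * ((m + s : ℕ) : ℝ)) = ee (a' * m) * ee (a' * s) := by
    rw [← ee_add]; congr 1; push_cast; ring
  have e3 : ee (a * s) * ee (-(a * s)) = 1 := by
    rw [← ee_add, add_neg_cancel]; simpa using ee_int 0
  have e4 : ee (a' * s) * ee (-(a * s)) = ee ((a' - a) * s) := by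
    rw [← ee_add]; congr 1; ring
  have h1 : c' * ee (a' * m) * (ee ((a' - a) * s) - 1) =
      (c * ee (a * m) - c' * ee (a' * m)) -
      (c * ee (a * ((m + s : ℕ) : ℝ)) - c' * ee (a' * ((m + s : ℕ) : ℝ))) * ee (-(a * s)) := by
    rw [e1, e2, ← e4]
    linear_combination (c * ee (a * m)) * e3
  have h2 : ‖c'‖ * ‖ee ((a' - a) * s) - 1‖ ≤ ‖c * ee (a * m) - c' * ee (a' * m)‖ +
      ‖c * ee (a * ((m + s : ℕ) : ℝ)) - c' * ee (a' * ((m + s : ℕ) : ℝ))‖ := by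
    have h3 := norm_sub_le (c * ee (a * m) - c' * ee (a' * m))
      ((c * ee (a * ((m + s : ℕ) : ℝ)) - c' * ee (a' * ((m + s : ℕ) : ℝ))) * ee (-(a * s)))
    rw [← h1, norm_mul, norm_mul, norm_mul, norm_ee, norm_ee, mul_one, mul_one] at h3
    exact h3
  have h4 : 0 ≤ ‖c'‖ * ‖ee ((a' - a) * s) - 1‖ := by positivity
  nlinarith [sq_nonneg (‖c * ee (a * m) - c' * ee (a' * m)‖ -
    ‖c * ee (a * ((m + s : ℕ) : ℝ)) - c' * ee (a' * ((m + s : ℕ) : ℝ))‖)]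

/-- the mean of the shifted differences -/
theorem mean_shift (c c' : ℂ) (a a' δ : ℝ) (N n s : ℕ) (hN : 1 ≤ N) (hs : 2 * s ≤ N)
    (h : (∑ m ∈ Ioc n (n + N), ‖c * ee (a * m) - c' * ee (a' * m)‖ ^ 2) / N ≤ δ) :
    (‖c'‖ * ‖ee ((a' - a) * s) - 1‖) ^ 2 ≤ 8 * δ := by
  have hN0 : (0 : ℝ) < N := by exact_mod_cast hN
  rw [div_le_iff₀ hN0] at h
  set U : ℕ → ℝ := fun m => ‖c * ee (a * (m : ℝ)) - c' * ee (a' * (m : ℝ))‖ ^ 2 with hU
  have hU0 : ∀ m, 0 ≤ U m := fun m => by positivity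
  have h1 : ∑ m ∈ Ioc n (n + (N - s)), U (m + s) ≤ ∑ m ∈ Ioc n (n + N), U m := by
    have h2 : ∑ m ∈ Ioc n (n + (N - s)), U (m + s) =
        ∑ m ∈ (Ioc n (n + (N - s))).image (fun m => m + s), U m := by
      rw [sum_image]
      intro x _ y _ hxy
      exact Nat.add_right_cancel hxy
    rw [h2]
    refine sum_le_sum_of_subset_of_nonneg ?_ fun i _ _ => hU0 i
    intro x hx
    rw [mem_image] at hx
    obtain ⟨m, hm, rfl⟩ := hx
    rw [mem_Ioc] at hm ⊢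
    omega
  have h3 : ∑ m ∈ Ioc n (n + (N - s)), U m ≤ ∑ m ∈ Ioc n (n + N), U m := by
    refine sum_le_sum_of_subset_of_nonneg ?_ fun i _ _ => hU0 i
    intro x hx
    rw [mem_Ioc] at hx ⊢
    omega
  have h4 : ∑ m ∈ Ioc n (n + (N - s)), (‖c'‖ * ‖ee ((a' - a) * s) - 1‖) ^ 2 ≤
      ∑ m ∈ Ioc n (n + (N - s)), (2 * U (m + s) + 2 * U m) :=
    sum_le_sum fun m _ => shift_le c c' a a' m s
  rw [sum_const, Nat.card_Ioc, nsmul_eq_mul, sum_add_distrib, ← mul_sum, ← mul_sum] at h4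
  have h5 : (N : ℝ) / 2 ≤ ((n + (N - s) - n : ℕ) : ℝ) := by
    have h6 : N ≤ 2 * (n + (N - s) - n) := by omega
    have h7 : (N : ℝ) ≤ 2 * ((n + (N - s) - n : ℕ) : ℝ) := by exact_mod_cast h6
    linarith
  have h8 : 0 ≤ (‖c'‖ * ‖ee ((a' - a) * s) - 1‖) ^ 2 := by positivity
  have h9 : (N : ℝ) / 2 * (‖c'‖ * ‖ee ((a' - a) * s) - 1‖) ^ 2 ≤ 4 * (δ * N) := by
    have := mul_le_mul_of_nonneg_right h5 h8
    linarith
  have h10 : (N : ℝ) * (‖c'‖ * ‖ee ((a' - a) * s) - 1‖) ^ 2 ≤ N * (8 * δ) := by linarith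
  exact le_of_mul_le_mul_left h10 hN0

/-- the norm of the difference of two exponentials -/
theorem norm_diff (c c' : ℂ) (a a' x : ℝ) :
    ‖c * ee (a * x) - c' * ee (a' * x)‖ = ‖c - c' * ee ((a' - a) * x)‖ := by
  have e1 : ee (a' * x) = ee ((a' - a) * x) * ee (a * x) := by
    rw [← ee_add]; congr 1; ring
  rw [e1, show c * ee (a * x) - c' * (ee ((a' - a) * x) * ee (a * x)) =
    (c - c' * ee ((a' - a) * x)) * ee (a * x) by ring, norm_mul, norm_ee, mul_one]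

theorem pf_IF : T_IF := by
  intro A κp e hA hκ he
  have hpi := Real.pi_pos
  obtain ⟨B, hB⟩ : ∃ B : ℝ, B = 1 + 12 * Real.pi * (A + 1) / κp := ⟨_, rfl⟩
  have hB0 : 0 < B := by rw [hB]; positivity
  obtain ⟨ρ, hρ⟩ : ∃ ρ : ℝ, ρ = min (κp / 6) (min 1 (min (κp * e / 6) (e / B))) := ⟨_, rfl⟩
  have hρ1 : ρ ≤ κp / 6 := by rw [hρ]; exact min_le_left _ _
  have hρ2 : ρ ≤ 1 := by rw [hρ]; exact (min_le_right _ _).trans (min_le_left _ _)
  have hρ3 : ρ ≤ κp * e / 6 := by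
    rw [hρ]; exact ((min_le_right _ _).trans (min_le_right _ _)).trans (min_le_left _ _)
  have hρ4 : ρ ≤ e / B := by
    rw [hρ]; exact ((min_le_right _ _).trans (min_le_right _ _)).trans (min_le_right _ _)
  have hρ0 : 0 < ρ := by
    rw [hρ]
    exact lt_min (by positivity) (lt_min one_pos (lt_min (by positivity) (by positivity)))
  refine ⟨ρ ^ 2, 2, by positivity, fun N n c c' a a' hN hc hcA h => ?_⟩
  have hN0 : (0 : ℝ) < N := by
    have : 0 < N := by omega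
    exact_mod_cast this
  -- a point with a small difference
  obtain ⟨m, hm, hm2⟩ : ∃ m ∈ Ioc n (n + N),
      ‖c * ee (a * (m : ℝ)) - c' * ee (a' * (m : ℝ))‖ ^ 2 ≤ ρ ^ 2 := by
    refine exists_le_of_sum_le (s := Ioc n (n + N)) (g := fun _ => ρ ^ 2)
      ⟨n + 1, by rw [mem_Ioc]; omega⟩ ?_
    rw [sum_const, Nat.card_Ioc, nsmul_eq_mul, Nat.add_sub_cancel_left]
    rw [div_le_iff₀ hN0] at h
    linarith
  have hm3 : ‖c * ee (a * (m : ℝ)) - c' * ee (a' * (m : ℝ))‖ ≤ ρ :=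
    le_of_sq_le_sq hm2 hρ0.le
  have hcc : |‖c‖ - ‖c'‖| ≤ ρ := by
    have h1 := abs_norm_sub_norm_le (c * ee (a * (m : ℝ))) (c' * ee (a' * (m : ℝ)))
    rw [norm_mul, norm_mul, norm_ee, norm_ee, mul_one, mul_one] at h1
    exact h1.trans hm3
  rw [abs_le] at hcc
  have hc1 : κp / 2 ≤ ‖c'‖ := by linarith [hcc.2]
  have hc2 : ‖c'‖ ≤ A + 1 := by linarith [hcc.1]
  obtain ⟨ν, hν⟩ : ∃ ν : ℝ, ν = 3 * ρ / (2 * κp) := ⟨_, rfl⟩
  have hν0 : 0 ≤ ν := by rw [hν]; positivity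
  have hν1 : ν ≤ 1 / 4 := by
    rw [hν, div_le_iff₀ (by positivity)]
    linarith
  have hν2 : 4 * ν ≤ e := by
    rw [hν, ← mul_div_assoc, div_le_iff₀ (by positivity)]
    linarith
  have hsn : ∀ s : ℕ, 1 ≤ s → s ≤ N / 2 → nd ((a' - a) * s) ≤ ν := by
    intro s _ hs
    have h1 := mean_shift c c' a a' (ρ ^ 2) N n s (by omega) (by omega) h
    have h2 : ‖c'‖ * ‖ee ((a' - a) * s) - 1‖ ≤ 3 * ρ := by
      refine le_of_sq_le_sq ?_ (by positivity)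
      nlinarith [sq_nonneg ρ]
    have h3 := Pool.Agent.H84.BAS.norm_ee_sub_one_ge ((a' - a) * s)
    have h4 : κp / 2 * (4 * nd ((a' - a) * s)) ≤ 3 * ρ :=
      (mul_le_mul hc1 h3 (by have := nd_nonneg ((a' - a) * s); positivity)
        (norm_nonneg _)).trans h2
    rw [hν, le_div_iff₀ (by positivity)]
    linarith
  have h1 := nd_lin (a' - a) ν (N / 2) hν0 hν1 hsn (N / 2) le_rfl
  have h2 : (N : ℝ) / 4 ≤ ((N / 2 : ℕ) : ℝ) := by
    have h3 : N ≤ 4 * (N / 2) := by omega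
    have h4 : (N : ℝ) ≤ 4 * ((N / 2 : ℕ) : ℝ) := by exact_mod_cast h3
    linarith
  have h3 : (N : ℝ) * nd (a' - a) ≤ 4 * ν := by
    have := mul_le_mul_of_nonneg_right h2 (nd_nonneg (a' - a))
    linarith
  constructor
  · rw [nd_sub_comm, le_div_iff₀ hN0, mul_comm]
    linarith
  -- the values at `n`
  rw [norm_diff] at hm3 ⊢
  have h4 : ‖ee ((a' - a) * (n : ℝ)) - ee ((a' - a) * (m : ℝ))‖ ≤ 2 * Real.pi * (4 * ν) := by
    rw [mem_Ioc] at hm
    refine (norm_ee_sub_le _ _).trans (mul_le_mul_of_nonneg_left ?_ (by positivity))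
    rw [nd_sub_comm, show (a' - a) * (m : ℝ) - (a' - a) * (n : ℝ) =
      ((m - n : ℕ) : ℝ) * (a' - a) by rw [Nat.cast_sub hm.1.le]; ring]
    refine (nd_nat_mul_le _ _).trans (le_trans ?_ h3)
    refine mul_le_mul_of_nonneg_right ?_ (nd_nonneg _)
    have : m - n ≤ N := by omega
    exact_mod_cast this
  have h5 : ‖c - c' * ee ((a' - a) * (n : ℝ))‖ ≤ ρ + (A + 1) * (2 * Real.pi * (4 * ν)) := by
    have h6 : c - c' * ee ((a' - a) * (n : ℝ)) = (c - c' * ee ((a' - a) * (m : ℝ))) -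
        c' * (ee ((a' - a) * (n : ℝ)) - ee ((a' - a) * (m : ℝ))) := by ring
    rw [h6]
    refine (norm_sub_le _ _).trans (add_le_add hm3 ?_)
    rw [norm_mul]
    exact mul_le_mul hc2 h4 (norm_nonneg _) (by linarith)
  refine h5.trans ?_
  have h7 : ρ + (A + 1) * (2 * Real.pi * (4 * ν)) = ρ * B := by
    rw [hν, hB]
    field_simp
    ring
  rw [h7]
  rwa [le_div_iff₀ hB0] at hρ4

end Pool.Agent.H69.G3
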